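import Pool.Agent.Helper97_BS.Com

/-! # BS squad, module DET1 -/

set_option autoImplicit false

namespace Pool.Agent.BS.H97

open Function Filter Topology

variable {D V : Type} {T : TMap D V} {θ : D → ℤ} {E : Env D V} {a : ℝ} {Δ K : ℕ}

/-- the totally flipped coloring -/
noncomputable def cf (T : TMap D V) (E : Env D V) : V → Bool := (T.flipE Set.univ E).c

theorem cf_vP {v : V} (h : v ∈ T.vP E) : cf T E v = E.c v := flip_c_vP h
theorem cf_fresh {v : V} (h : v ∉ T.vP E) : cf T E v = !E.c v := flip_c_fresh (Set.mem_univ v) h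

theorem DetCtx.st_P (h : DetCtx T Δ K θ E a) {i : ℤ} (hi : i ≤ 0) :
    T.st E.c E.r i ∈ E.P := (h.good.memP i).2 hi

theorem DetCtx.st_F (h : DetCtx T Δ K θ E a) {i : ℤ} (hi : 0 ≤ i) :
    T.st E.c E.r i ∈ E.F := (h.good.memF i).2 hi

/-- the past part of the interface is unchanged -/
theorem DetCtx.st_cf (h : DetCtx T Δ K θ E a) (i : ℤ) (hi : i ≤ 0) :
    T.st (cf T E) E.r i = T.st E.c E.r i :=
  st_agree_back (fun _ hj => ⟨cf_vP (lf_mem_vP (DetCtx.st_P h hj)),
    cf_vP (rt_mem_vP (DetCtx.st_P h hj))⟩) i hi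

/-- the flipped interface is a state -/
theorem DetCtx.state_cf (h : DetCtx T Δ K θ E a) : T.State (cf T E) E.r := h.tot.state

/-- a vertex of the past which is open is a left vertex -/
theorem DetCtx.open_vP (h : DetCtx T Δ K θ E a) {v : V} (hv : v ∈ T.vP E) (hc : E.c v = true) :
    ∃ e ∈ E.P, T.lf e = v := by
  obtain ⟨e, he, h1 | h1⟩ := hv
  · exact ⟨e, he, h1⟩
  · have := (h.good.stP e he).2
    rw [h1, hc] at this
    exact absurd this (by simp)

theorem DetCtx.closed_vP (h : DetCtx T Δ K θ E a) {v : V} (hv : v ∈ T.vP E)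
    (hc : E.c v = false) : ∃ e ∈ E.P, T.rt e = v := by
  obtain ⟨e, he, h1 | h1⟩ := hv
  · have := (h.good.stP e he).1
    rw [h1, hc] at this
    exact absurd this (by simp)
  · exact ⟨e, he, h1⟩

theorem DetCtx.closed_vF (h : DetCtx T Δ K θ E a) {v : V} (hv : v ∈ T.vF E)
    (hc : E.c v = false) : ∃ e ∈ E.F, T.rt e = v := by
  obtain ⟨e, he, h1 | h1⟩ := hv
  · have := (h.good.stF e he).1
    rw [h1, hc] at this
    exact absurd this (by simp)
  · exact ⟨e, he, h1⟩

theorem det1 : Det1Stmt := by
  intro D V T Δ K θ E a h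
  have hst := DetCtx.st_cf h
  have hS : T.State E.c E.r := h.good.state
  refine ⟨hst, ?_, ?_, ?_, ?_⟩
  · -- forward average
    obtain ⟨a', hF, hB⟩ := h.tot.avg
    have hB' : T.BAvg θ E.c E.r a' := by
      unfold TMap.BAvg at hB ⊢
      refine hB.congr (fun n => ?_)
      congr 1
      refine Finset.sum_congr rfl (fun k _ => ?_)
      have := hst (-(k : ℤ)) (by omega)
      unfold cf at this
      change (θ (T.st (T.flipE Set.univ E).c E.r (-(k : ℤ))) : ℝ) = _
      rw [this]
    have e : a' = a := tendsto_nhds_unique hB' h.bavg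
    rw [← e]
    exact hF
  · -- NoL
    refine h.tot.lo ?_
    intro i hi e he hoff
    have hoff' : ∀ j : ℤ, T.st E.c E.r j ≠ e := by
      intro j
      by_cases hj : j ≤ 0
      · rw [← hst j hj]
        exact hoff j
      · intro h2
        have h3 : T.st E.c E.r j ∈ E.P := by rw [h2]; exact he
        exact hj ((h.good.memP j).1 h3)
    have h4 := h.nolP e he hoff' i
    rw [← hst i hi] at h4
    exact h4
  · refine h.tot.ro ?_
    intro i hi e he hoff
    have hoff' : ∀ j : ℤ, T.st E.c E.r j ≠ e := by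
      intro j
      by_cases hj : j ≤ 0
      · rw [← hst j hj]
        exact hoff j
      · intro h2
        have h3 : T.st E.c E.r j ∈ E.P := by rw [h2]; exact he
        exact hj ((h.good.memP j).1 h3)
    have h4 := h.norP e he hoff' i
    rw [← hst i hi] at h4
    exact h4
  · -- the future right vertices
    have key : ∀ i : ℤ, 0 < i → E.c (T.rt (T.st E.c E.r i)) = false ∧
        T.rt (T.st E.c E.r i) ∉ T.vP E := by
      intro i hi
      have hcl := (hS.st i).2
      refine ⟨hcl, fun hv => ?_⟩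
      obtain ⟨e, he, h1⟩ := DetCtx.closed_vP h hv hcl
      by_cases hoff : ∀ j : ℤ, T.st E.c E.r j ≠ e
      · exact h.norP e he hoff i h1
      · push Not at hoff
        obtain ⟨j, hj⟩ := hoff
        have hj0 : j ≤ 0 := (h.good.memP j).1 (by rw [hj]; exact he)
        exact h.cut j i hj0 hi (by rw [hj, h1])
    intro i hi
    refine ⟨(key i hi).1, (key i hi).2, ?_⟩
    obtain ⟨n, rfl⟩ : ∃ n : ℕ, i = (n : ℤ) + 1 := ⟨(i - 1).natAbs, by omega⟩
    clear hi
    induction n with
    | zero =>
      have h1 := hS.lf_succ 0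
      rcases h1 with h1 | h1
      · have e : T.rt (T.st E.c E.r ((0 : ℕ) + 1)) = T.tau E.r := h1.2.1
        rw [e]
        exact Relation.ReflTransGen.refl
      · exact absurd h1.1.symm (h.cut 0 (0 + 1) le_rfl (by norm_num))
    | succ n ih =>
      have h1 := hS.lf_succ ((n : ℤ) + 1)
      have e : (((n + 1 : ℕ) : ℤ) + 1) = (n : ℤ) + 1 + 1 := by push_cast; ring
      rw [e]
      have hk := key ((n : ℤ) + 1 + 1) (by omega)
      rcases h1 with h1 | h1
      · refine ih.tail ⟨?_, ?_⟩
        · rintro (h2 | h2)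
          · rw [hk.1] at h2; exact absurd h2 (by simp)
          · exact hk.2 h2
        · rw [h1.2.1]
          exact (TMap.adj_tau_rt _).symm
      · rw [h1.1]
        exact ih

end Pool.Agent.BS.H97
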