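import Pool.Agent.Helper97_BS.DET1

/-! # BS squad, module DET2 -/

set_option autoImplicit false

namespace Pool.Agent.BS.H97

open Function Filter Topology

variable {D V : Type} {T : TMap D V} {θ : D → ℤ} {E : Env D V} {a : ℝ} {Δ K : ℕ}

theorem DetCtx.infinite (hInf : InfStmt) (h : DetCtx T Δ K θ E a) : Infinite V :=
  hInf D V T K θ h.flow ⟨T.lf E.r⟩

/-- the forbidden set of the fresh closed cluster -/
def Z0 (T : TMap D V) (E : Env D V) : Set V := {x | E.c x = true ∨ x ∈ T.vP E}

theorem notMem_Z0 {v : V} : v ∉ Z0 T E ↔ E.c v = false ∧ v ∉ T.vP E := by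
  unfold Z0
  simp only [Set.mem_ofPred_eq, not_or, Bool.not_eq_true]

/-- `tau E.r` is the first future right vertex -/
theorem tau_eq_rt_one (h : DetCtx T Δ K θ E a) :
    T.rt (T.st E.c E.r 1) = T.tau E.r ∧ E.c (T.tau E.r) = false := by
  have hS : T.State E.c E.r := h.good.state
  have h1 := hS.lf_succ 0
  rw [zero_add] at h1
  rcases h1 with h1 | h1
  · exact ⟨h1.2.1, h1.2.2⟩
  · exact absurd h1.1.symm (h.cut 0 1 le_rfl (by norm_num))

theorem tau_notMem (hD1 : Det1Stmt) (h : DetCtx T Δ K θ E a) : T.tau E.r ∉ Z0 T E := by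
  rw [notMem_Z0]
  have h1 := tau_eq_rt_one h
  have h2 := (hD1 D V T Δ K θ E a h).2.2.2.2 1 (by norm_num)
  rw [← h1.1]
  exact ⟨h2.1, h2.2.1⟩

/-- the first flipped state -/
theorem st_cf_one (hD1 : Det1Stmt) (h : DetCtx T Δ K θ E a) :
    T.st (cf T E) E.r 1 = T.rho E.r := by
  have h2 := notMem_Z0.1 (tau_notMem hD1 h)
  have e : T.st (cf T E) E.r 1 = T.nx (cf T E) E.r := rfl
  rw [e]
  unfold TMap.nx
  rw [if_pos]
  rw [cf_fresh h2.2, h2.1]
  rfl

theorem det2 (hD1 : Det1Stmt) (hA : WinAStmt) (hInf : InfStmt) : Det2Stmt := by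
  intro D V T Δ K θ E a h
  obtain ⟨hst, -, hNoL, -, hfut⟩ := hD1 D V T Δ K θ E a h
  have hS : T.State (cf T E) E.r := h.tot.state
  have hV : Infinite V := DetCtx.infinite hInf h
  have hv := tau_notMem hD1 h
  intro i hi
  obtain ⟨n, rfl⟩ : ∃ n : ℕ, i = (n : ℤ) + 1 := ⟨(i - 1).natAbs, by omega⟩
  clear hi
  change E.c (T.lf (T.st (cf T E) E.r _)) = false ∧ T.lf (T.st (cf T E) E.r _) ∉ T.vP E ∧
    T.Reach (Z0 T E) (T.tau E.r) (T.lf (T.st (cf T E) E.r _))
  induction n with
  | zero =>
    have e : T.st (cf T E) E.r (((0 : ℕ) : ℤ) + 1) = T.rho E.r := st_cf_one hD1 h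
    rw [e, T.lf_rho]
    have h2 := notMem_Z0.1 hv
    exact ⟨h2.1, h2.2, Relation.ReflTransGen.refl⟩
  | succ n ih =>
    have e : (((n + 1 : ℕ) : ℤ) + 1) = (n : ℤ) + 1 + 1 := by push_cast; ring
    rw [e]
    rcases hS.lf_succ ((n : ℤ) + 1) with h1 | h1
    · rw [h1.1]; exact ih
    · by_cases hx : T.tau (T.st (cf T E) E.r ((n : ℤ) + 1)) ∈ T.vP E
      · -- impossible
        exfalso
        have hc : E.c (T.tau (T.st (cf T E) E.r ((n : ℤ) + 1))) = true := by
          rw [← cf_vP hx]; exact h1.2.2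
        obtain ⟨e', he', he2⟩ := DetCtx.open_vP h hx hc
        have hon : ∃ j : ℤ, T.st (cf T E) E.r j = e' := by
          by_contra hcon
          push Not at hcon
          refine hNoL e' he' hcon ((n : ℤ) + 1 + 1) ?_
          rw [he2]
          exact h1.2.1.symm
        obtain ⟨j, hj⟩ := hon
        have hj0 : j ≤ 0 := by
          refine (h.tot.memP j).1 ?_
          change T.st (cf T E) E.r j ∈ E.P
          rw [hj]; exact he'
        obtain ⟨χ, hfin, -, -, hwin, -, hedge⟩ := hA D V T (cf T E) E.r h.planar hV hS h.tot.inj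
          j ((n : ℤ) + 1 + 1) (by omega) (by rw [hj, he2, h1.2.1])
        have hxe : T.lf (T.st (cf T E) E.r j) = T.tau (T.st (cf T E) E.r ((n : ℤ) + 1)) := by
          rw [hj, he2]
        rw [hxe] at hedge
        -- the potential at `tau`
        have hχ1 : χ (T.tau E.r) = 1 := by
          have h3 := hwin 1 (by omega) (by omega)
          rw [st_cf_one hD1 h, T.lf_rho] at h3
          exact h3
        have hconst : ∀ y, T.Reach (Z0 T E) (T.tau E.r) y → χ y = 1 := by
          intro y hy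
          induction hy with
          | refl => exact hχ1
          | @tail u w h3 h4 ih2 =>
            have hu := notMem_Z0.1 (reach_notMem hv h3)
            have hw := notMem_Z0.1 h4.1
            obtain ⟨d, hd1, hd2⟩ := h4.2
            have h5 := hedge d (by rw [hd1, hd2, cf_fresh hu.2, cf_fresh hw.2, hu.1, hw.1])
              (by rw [hd1]; intro h6; rw [h6] at hu; rw [hc] at hu; exact absurd hu.1 (by simp))
              (by rw [hd2]; intro h6; rw [h6] at hw; rw [hc] at hw; exact absurd hw.1 (by simp))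
            rw [hd1, hd2, ih2] at h5
            exact h5.symm
        obtain ⟨k, hk1, hk2⟩ := exists_rt_notMem (T := T) h.good.inj hfin 0
        refine hk2 ?_
        rw [mem_support, hconst _ (hfut k hk1).2.2]
        norm_num
      · have hc : E.c (T.tau (T.st (cf T E) E.r ((n : ℤ) + 1))) = false := by
          have h3 := h1.2.2
          rw [cf_fresh hx] at h3
          simpa using h3
        rw [h1.2.1]
        refine ⟨hc, hx, ih.2.2.tail ⟨notMem_Z0.2 ⟨hc, hx⟩, TMap.adj_lf_tau _⟩⟩

end Pool.Agent.BS.H97
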