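import Pool.Agent.Helper97_BS.DET2

/-! # BS squad, module DET3 -/

set_option autoImplicit false

namespace Pool.Agent.BS.H97

open Function Filter Topology

variable {D V : Type} {T : TMap D V} {θ : D → ℤ} {E : Env D V} {a : ℝ} {Δ K : ℕ}

/-- right vertices of the flipped interface in the past -/
theorem det3a (hD1 : Det1Stmt) (h : DetCtx T Δ K θ E a) {i : ℤ}
    (hv : T.rt (T.st (cf T E) E.r i) ∈ T.vP E) :
    E.c (T.rt (T.st (cf T E) E.r i)) = false ∧
      ∃ j : ℤ, j ≤ 0 ∧ T.rt (T.st (cf T E) E.r i) = T.rt (T.st E.c E.r j) := by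
  obtain ⟨hst, -, -, hNoR, -⟩ := hD1 D V T Δ K θ E a h
  have hS : T.State (cf T E) E.r := h.tot.state
  have hc : E.c (T.rt (T.st (cf T E) E.r i)) = false := by
    rw [← cf_vP hv]; exact (hS.st i).2
  refine ⟨hc, ?_⟩
  obtain ⟨e, he, he2⟩ := DetCtx.closed_vP h hv hc
  have hon : ∃ j : ℤ, T.st (cf T E) E.r j = e := by
    by_contra hcon
    push Not at hcon
    exact hNoR e he hcon i he2
  obtain ⟨j, hj⟩ := hon
  have hj0 : j ≤ 0 := by
    refine (h.tot.memP j).1 ?_
    change T.st (cf T E) E.r j ∈ E.P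
    rw [hj]; exact he
  refine ⟨j, hj0, ?_⟩
  have e2 : T.st E.c E.r j = e := by rw [← hst j hj0]; exact hj
  rw [e2, he2]

/-- a sum over an interval around the root splits into two partial sums -/
theorem sum_Ico_split (f : ℤ → ℤ) {j i : ℤ} (hj : j ≤ 0) (hi : 0 < i) :
    ∑ k ∈ Finset.Ico j i, f k = (∑ k ∈ Finset.range i.toNat, f (k : ℤ))
      + (∑ k ∈ Finset.range ((-j).toNat + 1), f (-(k : ℤ)) - f 0) := by
  have h1 : Finset.Ico j i = Finset.Ico j 0 ∪ Finset.Ico 0 i :=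
    (Finset.Ico_union_Ico_eq_Ico hj hi.le).symm
  have h2 : Disjoint (Finset.Ico j 0) (Finset.Ico 0 i) := Finset.Ico_disjoint_Ico_consecutive j 0 i
  rw [h1, Finset.sum_union h2, add_comm]
  congr 1
  · symm
    refine Finset.sum_nbij' (fun k : ℕ => (k : ℤ)) (fun k => k.toNat) ?_ ?_ ?_ ?_ ?_
    · intro k hk
      simp only [Finset.mem_range, Finset.mem_Ico] at hk ⊢
      omega
    · intro k hk
      simp only [Finset.mem_range, Finset.mem_Ico] at hk ⊢
      omega
    · intro k _; simp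
    · intro k hk
      simp only [Finset.mem_Ico] at hk
      omega
    · intro k _; rfl
  · rw [Finset.sum_range_succ']
    simp only [Nat.cast_zero, neg_zero, add_sub_cancel_right]
    symm
    refine Finset.sum_nbij' (fun k : ℕ => -((k + 1 : ℕ) : ℤ)) (fun k => (-k).toNat - 1)
      ?_ ?_ ?_ ?_ ?_
    · intro k hk
      simp only [Finset.mem_range, Finset.mem_Ico] at hk ⊢
      omega
    · intro k hk
      simp only [Finset.mem_range, Finset.mem_Ico] at hk ⊢
      omega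
    · intro k _
      simp
    · intro k hk
      simp only [Finset.mem_Ico] at hk
      omega
    · intro k _; rfl

theorem det3 (hD1 : Det1Stmt) (hB : WinBStmt) (hInf : InfStmt) : Det3Stmt := by
  intro D V T Δ K θ E a h
  obtain ⟨hst, hF, -, -, -⟩ := hD1 D V T Δ K θ E a h
  have hS : T.State (cf T E) E.r := h.tot.state
  have hV : Infinite V := DetCtx.infinite hInf h
  refine ⟨fun i _ hv => det3a hD1 h hv, ?_⟩
  obtain ⟨C1, hC1, h1⟩ := exists_lower (f := fun k => θ (T.st (cf T E) E.r (k : ℤ))) h.pos hF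
  obtain ⟨C2, hC2, h2⟩ := exists_lower (f := fun k => θ (T.st E.c E.r (-(k : ℤ)))) h.pos h.bavg
  refine ⟨K * Δ * Δ + Δ * (C1 + C2 + K), ?_⟩
  intro i hi hv
  have hi0 : 0 < i := lt_of_le_of_lt (by positivity) hi
  obtain ⟨-, j, hj0, hj⟩ := det3a hD1 h hv
  have hj' : T.rt (T.st (cf T E) E.r j) = T.rt (T.st (cf T E) E.r i) := by
    change T.rt (T.st (cf T E) E.r i) = _ at hj
    rw [hj, hst' hst hj0]
  obtain ⟨χ, -, -, -, -, -, -, hflux⟩ := hB D V T (cf T E) E.r h.planar hV hS h.tot.inj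
    j i (by omega) hj'
  have h3 := hflux Δ K θ h.deg h.flow
  rw [sum_Ico_split _ hj0 hi0] at h3
  have h4 := h1 i.toNat
  have h5 := h2 ((-j).toNat + 1)
  have h6 : ∑ k ∈ Finset.range ((-j).toNat + 1), θ (T.st (cf T E) E.r (-(k : ℤ)))
      = ∑ k ∈ Finset.range ((-j).toNat + 1), θ (T.st E.c E.r (-(k : ℤ))) := by
    refine Finset.sum_congr rfl (fun k _ => ?_)
    rw [hst' hst (by omega)]
  rw [h6] at h3
  have h7 : θ (T.st (cf T E) E.r 0) ≤ K := (abs_le.1 (h.flow.bdd _)).2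
  have h8 : -(C1 + C2 + K) ≤ (∑ k ∈ Finset.range i.toNat, θ (T.st (cf T E) E.r (k : ℤ)))
      + (∑ k ∈ Finset.range ((-j).toNat + 1), θ (T.st E.c E.r (-(k : ℤ)))
        - θ (T.st (cf T E) E.r 0)) := by
    linarith
  have h9 := mul_le_mul_of_nonneg_left h8 (Int.natCast_nonneg Δ)
  linarith
where
  hst' {D V : Type} {T : TMap D V} {E : Env D V}
      (hst : ∀ i : ℤ, i ≤ 0 → T.st (T.flipE Set.univ E).c E.r i = T.st E.c E.r i) {i : ℤ}
      (hi : i ≤ 0) : T.st (cf T E) E.r i = T.st E.c E.r i := hst i hi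

end Pool.Agent.BS.H97
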