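import Pool.Agent.Helper97_BS.DET3

/-! # BS squad, module DET4: the deterministic contradiction -/

set_option autoImplicit false

namespace Pool.Agent.BS.H97

open Function Filter Topology

variable {D V : Type} {T : TMap D V} {θ : D → ℤ} {E : Env D V} {a : ℝ} {Δ K : ℕ}

/-! ### rotation backwards around the right vertex of the root -/

/-- the dart number `i` of the backward rotation around the right vertex of `r` -/
def R (T : TMap D V) (r : D) (i : ℕ) : D := (T.rho.symm ^ i) r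

@[simp] theorem R_zero (r : D) : R T r 0 = r := rfl

theorem R_succ (r : D) (i : ℕ) : R T r (i + 1) = T.rho.symm (R T r i) := by
  unfold R
  rw [pow_succ', Equiv.Perm.mul_apply]

theorem rho_R_succ (r : D) (i : ℕ) : T.rho (R T r (i + 1)) = R T r i := by
  rw [R_succ, Equiv.apply_symm_apply]

@[simp] theorem rt_R (r : D) (i : ℕ) : T.rt (R T r i) = T.rt r := by
  induction i with
  | zero => rfl
  | succ i ih => rw [R_succ, T.rt_rho_symm, ih]

theorem lf_R_succ (r : D) (i : ℕ) : T.lf (R T r (i + 1)) = T.rt (T.lam.symm (R T r i)) := by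
  rw [R_succ, T.lf_rho_symm]

theorem tau_R_succ (r : D) (i : ℕ) : T.tau (R T r (i + 1)) = T.lf (R T r i) := by
  rw [← T.lf_rho, rho_R_succ]

theorem R_eq {r : D} {n : ℕ} (hn : (T.rho ^ n) r = r) {i : ℕ} (hi : i ≤ n) :
    R T r i = (T.rho ^ (n - i)) r := by
  induction i with
  | zero => rw [Nat.sub_zero, hn]; rfl
  | succ i ih =>
    rw [R_succ, ih (by omega)]
    have e : n - i = (n - (i + 1)) + 1 := by omega
    rw [e, pow_succ', Equiv.Perm.mul_apply, Equiv.symm_apply_apply]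

/-- the backward interface follows the rotation as long as the left vertices are open -/
theorem back_R {c : V → Bool} {r : D} {N : ℕ}
    (h : ∀ j : ℕ, 1 ≤ j → j ≤ N → c (T.lf (R T r j)) = true) :
    ∀ j : ℕ, j ≤ N → T.st c r (-(j : ℤ)) = R T r j := by
  intro j
  induction j with
  | zero => intro _; rfl
  | succ j ih =>
    intro hj
    have h1 := ih (by omega)
    rw [TMap.st_neg_natCast] at h1 ⊢
    rw [iterate_succ_apply', h1]
    have h2 := h (j + 1) (by omega) hj
    rw [lf_R_succ] at h2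
    unfold TMap.pv
    rw [if_pos h2, R_succ]

/-- the next dart when the next left vertex is closed -/
theorem back_R_last {c : V → Bool} {r : D} {N : ℕ}
    (h : ∀ j : ℕ, 1 ≤ j → j ≤ N → c (T.lf (R T r j)) = true)
    (h2 : c (T.lf (R T r (N + 1))) = false) :
    T.st c r (-((N + 1 : ℕ) : ℤ)) = T.lam.symm (R T r N) := by
  have h1 := back_R h N le_rfl
  rw [TMap.st_neg_natCast] at h1 ⊢
  rw [iterate_succ_apply', h1]
  rw [lf_R_succ] at h2
  unfold TMap.pv
  rw [if_neg (by rw [h2]; simp)]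

/-! ### the last visit of the right vertex of the root -/

/-- the situation at the last visit -/
structure Rot (T : TMap D V) (E : Env D V) (m : ℤ) (n t : ℕ) : Prop where
  mpos : 0 < m
  rtm : T.rt (T.st (cf T E) E.r m) = T.rt E.r
  last : ∀ i : ℤ, m < i → T.rt (T.st (cf T E) E.r i) ≠ T.rt E.r
  per : (T.rho ^ n) E.r = E.r
  dist : ∀ i j : ℕ, i < j → j < n → (T.rho ^ i) E.r ≠ (T.rho ^ j) E.r
  tn : t + 1 < n
  t1 : 1 ≤ t
  eqm : R T E.r (t + 1) = T.st (cf T E) E.r m
  lf1 : T.lf (T.st (cf T E) E.r (m + 1)) = T.lf (R T E.r (t + 1))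
  rt1 : T.rt (T.st (cf T E) E.r (m + 1)) = T.lf (R T E.r t)

theorem exists_rot (hD1 : Det1Stmt) (hD3 : Det3Stmt) (h : DetCtx T Δ K θ E a) :
    ∃ (m : ℤ) (n t : ℕ), Rot T E m n t := by
  have hS : T.State (cf T E) E.r := h.tot.state
  have hr : E.r ∈ E.P := DetCtx.st_P h (i := 0) le_rfl
  obtain ⟨-, N, hN⟩ := hD3 D V T Δ K θ E a h
  change ∀ i : ℤ, N < i → T.rt (T.st (cf T E) E.r i) ∉ T.vP E at hN
  obtain ⟨m, ⟨hm0, hm1⟩, hm2⟩ := Int.exists_greatest_of_bdd
    (P := fun i => 0 < i ∧ T.rt (T.st (cf T E) E.r i) = T.rt E.r)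
    ⟨N, fun z hz => by
      by_contra hcon
      push Not at hcon
      refine hN z hcon ?_
      rw [hz.2]
      exact rt_mem_vP hr⟩
    ⟨1, by norm_num, by rw [st_cf_one hD1 h, T.rt_rho]⟩
  have hlast : ∀ i : ℤ, m < i → T.rt (T.st (cf T E) E.r i) ≠ T.rt E.r := by
    intro i hi h2
    have := hm2 i ⟨by omega, h2⟩
    omega
  obtain ⟨n, hn0, hn1, hn2, hn3⟩ := exists_period (T := T) E.r
  obtain ⟨k, hk1, hk2⟩ := hn3 _ hm1
  have hk0 : k ≠ 0 := by
    rintro rfl
    have h2 : T.st (cf T E) E.r 0 = T.st (cf T E) E.r m := hk2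
    have := h.tot.inj h2
    omega
  have heq : R T E.r (n - k - 1 + 1) = T.st (cf T E) E.r m := by
    rw [R_eq hn1 (by omega), ← hk2]
    congr 2
    omega
  have h1 : T.lf (T.st (cf T E) E.r (m + 1)) = T.lf (T.st (cf T E) E.r m) ∧
      T.rt (T.st (cf T E) E.r (m + 1)) = T.tau (T.st (cf T E) E.r m) ∧
      cf T E (T.tau (T.st (cf T E) E.r m)) = false := by
    rcases hS.lf_succ m with h1 | h1
    · exact h1
    · exact absurd (h1.1.trans hm1) (hlast (m + 1) (by omega))
  have htau : T.tau (T.st (cf T E) E.r m) = T.lf (R T E.r (n - k - 1)) := by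
    rw [← heq, tau_R_succ]
  have ht : 1 ≤ n - k - 1 := by
    by_contra hcon
    have e0 : n - k - 1 = 0 := by omega
    rw [e0] at htau
    have h2 := h1.2.2
    rw [htau] at h2
    change cf T E (T.lf E.r) = false at h2
    rw [cf_vP (lf_mem_vP hr), h.good.state.1] at h2
    exact absurd h2 (by simp)
  refine ⟨m, n, n - k - 1, hm0, hm1, hlast, hn1, hn2, by omega, ht, heq, ?_, ?_⟩
  · rw [heq]; exact h1.1
  · rw [h1.2.1, htau]

/-! ### the fresh closed cluster -/

/-- the fresh closed cluster of `tau E.r` -/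
def CC (T : TMap D V) (E : Env D V) : Set V := {y | T.Reach (Z0 T E) (T.tau E.r) y}

theorem CC_closed (hD1 : Det1Stmt) (h : DetCtx T Δ K θ E a) {y : V} (hy : y ∈ CC T E) :
    E.c y = false ∧ y ∉ T.vP E :=
  notMem_Z0.1 (reach_notMem (tau_notMem hD1 h) hy)

theorem lf_mem_CC (hD2 : Det2Stmt) (h : DetCtx T Δ K θ E a) {i : ℤ} (hi : 0 < i) :
    T.lf (T.st (cf T E) E.r i) ∈ CC T E := (hD2 D V T Δ K θ E a h i hi).2.2

theorem rt_mem_CC (hD1 : Det1Stmt) (h : DetCtx T Δ K θ E a) {i : ℤ} (hi : 0 < i) :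
    T.rt (T.st E.c E.r i) ∈ CC T E := ((hD1 D V T Δ K θ E a h).2.2.2.2 i hi).2.2

theorem rt_notMem_CC (hD1 : Det1Stmt) (h : DetCtx T Δ K θ E a) {i : ℤ} :
    T.rt (T.st (cf T E) E.r i) ∉ CC T E := by
  intro hmem
  have h1 := CC_closed hD1 h hmem
  have hS : T.State (cf T E) E.r := h.tot.state
  have h2 := (hS.st i).2
  rw [cf_fresh h1.2, h1.1] at h2
  exact absurd h2 (by simp)

/-! ### step (b) -/

theorem w_notMem_CC (hD1 : Det1Stmt) (hD2 : Det2Stmt) (hOE : OEStmt) (hAlt : AltStmt)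
    (h : DetCtx T Δ K θ E a) {m : ℤ} {n t : ℕ} (hr : Rot T E m n t) {i : ℕ} (hi1 : 1 ≤ i)
    (hit : i ≤ t) : T.lf (R T E.r i) ∉ CC T E := by
  intro hmem
  have hrP : E.r ∈ E.P := DetCtx.st_P h (i := 0) le_rfl
  have hS : T.State E.c E.r := h.good.state
  have hS' : T.State (cf T E) E.r := h.tot.state
  have hit' : i < t := by
    rcases hit.eq_or_lt with rfl | h1
    · rw [← hr.rt1] at hmem
      exact absurd hmem (rt_notMem_CC hD1 h)
    · exact h1
  have hl : T.lf (R T E.r (t + 1)) ∈ CC T E := by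
    rw [hr.eqm]; exact lf_mem_CC hD2 h hr.mpos
  obtain ⟨F1, hF1, hv1, hw1, hc1, hs1⟩ := exists_fin_conn (T := T) hmem
  obtain ⟨F2, hF2, hv2, hw2, hc2, hs2⟩ := exists_fin_conn (T := T) hl
  set Z : Set V := F1 ∪ F2 with hZ
  have hZfin : Z.Finite := hF1.union hF2
  have hZconn : T.Conn Z := conn_union hc1 hc2 hv1 hv2
  have hZC : ∀ z ∈ Z, z ∈ CC T E := by
    rintro z (hz | hz)
    · exact hs1 z hz
    · exact hs2 z hz
  have hbZ : T.rt E.r ∉ Z := fun hb => (CC_closed hD1 h (hZC _ hb)).2 (rt_mem_vP hrP)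
  set W : Set V := insert (T.rt E.r) Z with hW
  have hWfin : W.Finite := hZfin.insert _
  have hWclosed : ∀ z ∈ W, E.c z = false := by
    rintro z (rfl | hz)
    · exact hS.2
    · exact (CC_closed hD1 h (hZC z hz)).1
  have hopen : ∀ z, E.c z = true → z ∉ W := by
    intro z hz hz2
    rw [hWclosed z hz2] at hz
    exact absurd hz (by simp)
  have ha0 : T.lf E.r ∉ W := hopen _ hS.1
  set E1 : Set V := {y | T.Reach W (T.lf E.r) y} with hE1
  have hE1conn : T.Conn E1 := conn_comp ha0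
  have hE1W : ∀ y ∈ E1, y ∉ W := fun y hy => reach_notMem ha0 hy
  -- the future left vertices
  have hak : ∀ k : ℕ, T.lf (T.st E.c E.r (k : ℤ)) ∈ E1 := by
    intro k
    induction k with
    | zero => exact Relation.ReflTransGen.refl
    | succ k ih =>
      have e : ((k + 1 : ℕ) : ℤ) = (k : ℤ) + 1 := by push_cast; ring
      rw [e]
      have hop := (hS.st ((k : ℤ) + 1)).1
      rcases hS.lf_succ (k : ℤ) with h1 | h1
      · rw [h1.1]; exact ih
      · refine Relation.ReflTransGen.tail ih ⟨hopen _ hop, ?_⟩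
        rw [h1.2.1]
        exact TMap.adj_lf_tau _
  have hE1inf : ¬ E1.Finite := by
    intro hfin
    obtain ⟨k, hk1, hk2⟩ := exists_lf_notMem (T := T) h.good.inj hfin 0
    obtain ⟨k', rfl⟩ : ∃ k' : ℕ, k = (k' : ℤ) := ⟨k.natAbs, by omega⟩
    exact hk2 (hak k')
  have hbdfin : {d | T.lf d ∈ E1 ∧ T.rt d ∉ E1}.Finite := by
    refine (finite_rt (T := T) hWfin).subset ?_
    rintro d ⟨hd1, hd2⟩
    by_contra hd3
    exact hd2 (Relation.ReflTransGen.tail hd1 ⟨hd3, TMap.adj_lf_rt d⟩)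
  have hcofin : E1ᶜ.Finite := by
    rcases hOE D V T h.planar E1 hbdfin with h1 | h1
    · exact absurd h1 hE1inf
    · exact h1
  -- the future right vertices of the flipped interface
  have hrk : ∀ k : ℤ, m < k → T.rt (T.st (cf T E) E.r k) ∉ W := by
    rintro k hk (h1 | h1)
    · exact hr.last k hk h1
    · exact rt_notMem_CC hD1 h (hZC _ h1)
  have hreach : ∀ q : ℕ, T.Reach W (T.rt (T.st (cf T E) E.r (m + 1)))
      (T.rt (T.st (cf T E) E.r (m + 1 + q))) := by
    intro q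
    induction q with
    | zero => rw [Nat.cast_zero, add_zero]; exact Relation.ReflTransGen.refl
    | succ q ih =>
      have e : m + 1 + ((q + 1 : ℕ) : ℤ) = (m + 1 + q) + 1 := by push_cast; ring
      rw [e]
      rcases hS'.lf_succ (m + 1 + q) with h1 | h1
      · refine ih.tail ⟨hrk _ (by omega), ?_⟩
        rw [h1.2.1]
        exact (TMap.adj_tau_rt _).symm
      · rw [h1.1]; exact ih
  have hwt : T.lf (R T E.r t) ∈ E1 := by
    rw [← hr.rt1]
    obtain ⟨k, hk1, hk2⟩ := exists_rt_notMem (T := T) h.tot.inj hcofin m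
    obtain ⟨q, rfl⟩ : ∃ q : ℕ, k = m + 1 + (q : ℤ) := ⟨(k - m - 1).natAbs, by omega⟩
    have h1 : T.rt (T.st (cf T E) E.r (m + 1 + q)) ∈ E1 := by
      by_contra hcon
      exact hk2 hcon
    exact Relation.ReflTransGen.trans h1 (reach_symm (hrk _ (by omega)) (hreach q))
  -- the alternation
  have htn := hr.tn
  refine hAlt D V T h.planar (T.rt E.r) Z E1 hZfin hZconn hE1conn ?_ hbZ ?_ E.r
    (n - (t + 1)) (n - t) (n - i) n rfl (by omega) (by omega) (by omega) (by omega)
    hr.dist ?_ ?_ ?_ ?_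
  · rw [Set.disjoint_left]
    intro z hz hz2
    exact hE1W z hz2 (Set.mem_insert_of_mem _ hz)
  · intro hb
    exact hE1W _ hb (Set.mem_insert _ _)
  · exact Relation.ReflTransGen.refl
  · rw [← R_eq hr.per (by omega)]; exact Or.inr hw2
  · rw [← R_eq hr.per (by omega)]; exact hwt
  · rw [← R_eq hr.per (by omega)]; exact Or.inl hw1

/-! ### finite flips of the mirror environment -/

/-- the coloring of the mirror flip -/
noncomputable def cm (T : TMap D V) (E : Env D V) (S : Finset V) : V → Bool :=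
  (T.mirror.flipE (S : Set V) E.mir).c

theorem cm_vF {S : Finset V} {v : V} (h : v ∈ T.vF E) : cm T E S v = E.c v :=
  flip_c_vP (T := T.mirror) (E := E.mir) (v := v) h

theorem cm_notMem {S : Finset V} {v : V} (h : v ∉ S) : cm T E S v = E.c v :=
  flip_c_notMem (T := T.mirror) (E := E.mir) (v := v) (fun h2 => h (Finset.mem_coe.1 h2))

theorem cm_mem {S : Finset V} {v : V} (hS : v ∈ S) (h : v ∉ T.vF E) :
    cm T E S v = !E.c v :=
  flip_c_fresh (T := T.mirror) (E := E.mir) (v := v) (Finset.mem_coe.2 hS) h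

/-- the future part of the interface is unchanged -/
theorem st_cm (h : DetCtx T Δ K θ E a) (S : Finset V) (i : ℤ) (hi : 0 ≤ i) :
    T.st (cm T E S) E.r i = T.st E.c E.r i :=
  st_agree_fwd (fun _ hj => ⟨cm_vF (lf_mem_vF (DetCtx.st_F h hj)),
    cm_vF (rt_mem_vF (DetCtx.st_F h hj))⟩) i hi

theorem state_cm (h : DetCtx T Δ K θ E a) (S : Finset V) : T.State (cm T E S) E.r :=
  (h.fin S).state

/-- darts of the future on the flipped interface -/
theorem mem_F_cm (h : DetCtx T Δ K θ E a) (S : Finset V) (k : ℤ) :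
    T.st (cm T E S) E.r k ∈ E.F ↔ 0 ≤ k := by
  have h1 := (h.fin S).memP (-k)
  change T.mirror.st (cm T E S) E.r (-k) ∈ E.F ↔ -k ≤ 0 at h1
  rw [TMap.mirror_st, neg_neg] at h1
  rw [h1]
  omega

/-- future darts off the flipped interface do not touch it on the right -/
theorem noR_cm (h : DetCtx T Δ K θ E a) (S : Finset V) {e : D} (he : e ∈ E.F)
    (hoff : ∀ j : ℤ, T.st (cm T E S) E.r j ≠ e) (i : ℤ) :
    T.rt e ≠ T.rt (T.st (cm T E S) E.r i) := by
  have h1 : T.mirror.NoR E.F (cm T E S) E.r := by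
    refine (h.fin S).ro ?_
    intro i hi e he hoff
    change ∀ j : ℤ, T.mirror.st (cm T E S) E.r j ≠ e at hoff
    change T.rt e ≠ T.rt (T.mirror.st (cm T E S) E.r i)
    rw [TMap.mirror_st, st_cm h S (-i) (by omega)]
    refine h.norF e he ?_ (-i)
    intro j hj
    have hj0 : 0 ≤ j := (h.good.memF j).1 (by rw [hj]; exact he)
    have h2 := hoff (-j)
    rw [TMap.mirror_st, neg_neg, st_cm h S j hj0] at h2
    exact h2 hj
  have h2 := h1 e he (by
    intro j
    rw [TMap.mirror_st]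
    exact hoff (-j)) (-i)
  rw [TMap.mirror_st, neg_neg] at h2
  exact h2

/-! ### step (c) -/

theorem w_notMem_vF (hD1 : Det1Stmt) (hD2 : Det2Stmt) (hOE : OEStmt) (hAlt : AltStmt)
    (h : DetCtx T Δ K θ E a) {m : ℤ} {n t : ℕ} (hr : Rot T E m n t) :
    ∀ i : ℕ, 1 ≤ i → i ≤ t → E.c (T.lf (R T E.r i)) = false → T.lf (R T E.r i) ∉ T.vF E := by
  classical
  intro i
  induction i using Nat.strong_induction_on with
  | _ i ih =>
    intro hi1 hit hc hF
    have hrF : E.r ∈ E.F := DetCtx.st_F h (i := 0) le_rfl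
    set S : Finset V := ((Finset.Icc 1 (i - 1)).image (fun j => T.lf (R T E.r j))).filter
      (fun v => E.c v = false) with hS
    have hS1 : ∀ v ∈ S, E.c v = false := fun v hv => (Finset.mem_filter.1 hv).2
    have hcol : ∀ j : ℕ, 1 ≤ j → j ≤ i - 1 → cm T E S (T.lf (R T E.r j)) = true := by
      intro j hj1 hj2
      by_cases hcj : E.c (T.lf (R T E.r j)) = true
      · rw [cm_notMem, hcj]
        intro hmem
        rw [hS1 _ hmem] at hcj
        exact absurd hcj (by simp)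
      · have hcj' : E.c (T.lf (R T E.r j)) = false := by simpa using hcj
        rw [cm_mem ?_ (ih j (by omega) hj1 (by omega) hcj'), hcj']
        · rfl
        · rw [hS, Finset.mem_filter, Finset.mem_image]
          exact ⟨⟨j, Finset.mem_Icc.2 ⟨hj1, hj2⟩, rfl⟩, hcj'⟩
    obtain ⟨N, rfl⟩ : ∃ N, i = N + 1 := ⟨i - 1, by omega⟩
    have hlast : T.st (cm T E S) E.r (-((N + 1 : ℕ) : ℤ)) = T.lam.symm (R T E.r N) := by
      refine back_R_last (fun j hj1 hj2 => hcol j hj1 (by omega)) ?_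
      rw [cm_vF hF, hc]
    have hrtl : T.rt (T.st (cm T E S) E.r (-((N + 1 : ℕ) : ℤ))) = T.lf (R T E.r (N + 1)) := by
      rw [hlast, lf_R_succ]
    obtain ⟨e, he, he2⟩ := DetCtx.closed_vF h hF hc
    by_cases hoff : ∀ j : ℤ, T.st (cm T E S) E.r j ≠ e
    · exact noR_cm h S he hoff (-((N + 1 : ℕ) : ℤ)) (by rw [hrtl, he2])
    · push Not at hoff
      obtain ⟨k, hk⟩ := hoff
      have hk0 : 0 ≤ k := (mem_F_cm h S k).1 (by rw [hk]; exact he)
      rw [st_cm h S k hk0] at hk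
      rcases hk0.eq_or_lt with h0 | h0
      · rw [← h0] at hk
        change E.r = e at hk
        rw [← hk] at he2
        exact TMap.lf_ne_rt (T := T) (R T E.r (N + 1)) (by rw [rt_R, he2])
      · refine w_notMem_CC hD1 hD2 hOE hAlt h hr hi1 hit ?_
        rw [← he2, ← hk]
        exact rt_mem_CC hD1 h h0

/-! ### averages -/

theorem avg_shift {f : ℕ → ℝ} {a : ℝ} (p : ℕ)
    (h : Tendsto (fun n : ℕ => (∑ k ∈ Finset.range n, f k) / n) atTop (𝓝 a)) :
    Tendsto (fun n : ℕ => (∑ k ∈ Finset.range (n + p), f k) / n) atTop (𝓝 a) := by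
  have h1 := h.comp (tendsto_add_atTop_nat p)
  have h2 : Tendsto (fun n : ℕ => ((n + p : ℕ) : ℝ) / n) atTop (𝓝 1) := by
    have h3 : Tendsto (fun n : ℕ => 1 + (p : ℝ) / n) atTop (𝓝 (1 + 0)) :=
      tendsto_const_nhds.add (tendsto_const_div_atTop_nhds_zero_nat (p : ℝ))
    rw [add_zero] at h3
    refine h3.congr' ?_
    filter_upwards [eventually_gt_atTop 0] with n hn
    have hn' : (n : ℝ) ≠ 0 := by positivity
    push_cast
    field_simp
  have h4 := h1.mul h2
  rw [mul_one] at h4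
  refine h4.congr' ?_
  filter_upwards [eventually_gt_atTop 0] with n hn
  have hn' : (n : ℝ) ≠ 0 := by positivity
  have hn2 : ((n + p : ℕ) : ℝ) ≠ 0 := by positivity
  simp only [comp_apply]
  field_simp

/-- two sequences with the same positive average cannot be opposite from some point on -/
theorem avg_contra {f g : ℕ → ℤ} {a : ℝ} (ha : 0 < a) {p q : ℕ}
    (hf : Tendsto (fun n : ℕ => (∑ k ∈ Finset.range n, (f k : ℝ)) / n) atTop (𝓝 a))
    (hg : Tendsto (fun n : ℕ => (∑ k ∈ Finset.range n, (g k : ℝ)) / n) atTop (𝓝 a))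
    (hfg : ∀ k : ℕ, g (p + k) = - f (q + k)) : False := by
  have h1 := avg_shift q hf
  have h2 := avg_shift p hg
  have h3 := h1.add h2
  have h4 : Tendsto (fun n : ℕ => ((∑ k ∈ Finset.range q, (f k : ℝ))
      + ∑ k ∈ Finset.range p, (g k : ℝ)) / n) atTop (𝓝 0) :=
    tendsto_const_div_atTop_nhds_zero_nat _
  have h5 : a + a = 0 := by
    refine tendsto_nhds_unique h3 (h4.congr (fun n => ?_))
    rw [← add_div]
    congr 1
    rw [add_comm n q, add_comm n p, Finset.sum_range_add, Finset.sum_range_add]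
    have h6 : ∑ k ∈ Finset.range n, (g (p + k) : ℝ) = - ∑ k ∈ Finset.range n, (f (q + k) : ℝ) := by
      rw [← Finset.sum_neg_distrib]
      refine Finset.sum_congr rfl (fun k _ => ?_)
      rw [hfg k]
      push_cast
      rfl
    rw [h6]
    ring
  linarith

/-! ### steps (d) and (e) -/

theorem det4 (hD1 : Det1Stmt) (hD2 : Det2Stmt) (hD3 : Det3Stmt) (hOE : OEStmt)
    (hAlt : AltStmt) : DetStmt := by
  classical
  intro D V T Δ K θ E a h
  obtain ⟨m, n, t, hr⟩ := exists_rot hD1 hD3 h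
  have hrF : E.r ∈ E.F := DetCtx.st_F h (i := 0) le_rfl
  have hrP : E.r ∈ E.P := DetCtx.st_P h (i := 0) le_rfl
  have hS' : T.State (cf T E) E.r := h.tot.state
  obtain ⟨hst, hFavg, -, -, -⟩ := hD1 D V T Δ K θ E a h
  obtain ⟨-, N, hN⟩ := hD3 D V T Δ K θ E a h
  change ∀ i : ℤ, N < i → T.rt (T.st (cf T E) E.r i) ∉ T.vP E at hN
  -- the set to be opened
  set S : Finset V := ((Finset.Ioc 0 N).image (fun k => T.rt (T.st (cf T E) E.r k))).filter
    (fun v => v ∈ T.vP E ∧ v ≠ T.rt E.r) ∪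
    ((Finset.Icc 1 t).image (fun j => T.lf (R T E.r j))).filter (fun v => E.c v = false)
    with hS
  have hSmem : ∀ v, v ∈ S ↔ (∃ k : ℤ, (0 < k ∧ k ≤ N) ∧ T.rt (T.st (cf T E) E.r k) = v ∧
      v ∈ T.vP E ∧ v ≠ T.rt E.r) ∨ ∃ j : ℕ, (1 ≤ j ∧ j ≤ t) ∧ T.lf (R T E.r j) = v ∧
      E.c v = false := by
    intro v
    rw [hS, Finset.mem_union, Finset.mem_filter, Finset.mem_filter, Finset.mem_image,
      Finset.mem_image]
    constructor
    · rintro (⟨⟨k, hk1, hk2⟩, hk3, hk4⟩ | ⟨⟨j, hj1, hj2⟩, hj3⟩)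
      · exact Or.inl ⟨k, Finset.mem_Ioc.1 hk1, hk2, hk3, hk4⟩
      · exact Or.inr ⟨j, Finset.mem_Icc.1 hj1, hj2, hj3⟩
    · rintro (⟨k, hk1, hk2, hk3, hk4⟩ | ⟨j, hj1, hj2, hj3⟩)
      · exact Or.inl ⟨⟨k, Finset.mem_Ioc.2 hk1, hk2⟩, hk3, hk4⟩
      · exact Or.inr ⟨⟨j, Finset.mem_Icc.2 hj1, hj2⟩, hj3⟩
  -- closed
  have hScl : ∀ v ∈ S, E.c v = false := by
    intro v hv
    rcases (hSmem v).1 hv with ⟨k, hk1, hk2, hk3, hk4⟩ | ⟨j, hj1, hj2, hj3⟩
    · rw [← hk2] at hk3 ⊢
      exact (det3a hD1 h hk3).1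
    · exact hj3
  -- not in the cluster
  have hSC : ∀ v ∈ S, v ∉ CC T E := by
    intro v hv hvC
    rcases (hSmem v).1 hv with ⟨k, hk1, hk2, hk3, hk4⟩ | ⟨j, hj1, hj2, hj3⟩
    · exact (CC_closed hD1 h hvC).2 hk3
    · rw [← hj2] at hvC
      exact w_notMem_CC hD1 hD2 hOE hAlt h hr hj1.1 hj1.2 hvC
  -- not in the future
  have hSF : ∀ v ∈ S, v ∉ T.vF E := by
    intro v hv hvF
    have hcl := hScl v hv
    rcases (hSmem v).1 hv with ⟨k, hk1, hk2, hk3, hk4⟩ | ⟨j, hj1, hj2, hj3⟩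
    · rw [← hk2] at hk3
      obtain ⟨-, j, hj0, hj⟩ := det3a hD1 h hk3
      rw [hk2] at hj
      obtain ⟨e, he, he2⟩ := DetCtx.closed_vF h hvF hcl
      by_cases hoff : ∀ i : ℤ, T.st E.c E.r i ≠ e
      · exact h.norF e he hoff j (by rw [he2, hj])
      · push Not at hoff
        obtain ⟨i, hi⟩ := hoff
        have hi0 : 0 ≤ i := (h.good.memF i).1 (by rw [hi]; exact he)
        rcases hi0.eq_or_lt with h0 | h0
        · rw [← h0] at hi
          change E.r = e at hi
          rw [← hi] at he2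
          exact hk4 he2.symm
        · exact h.cut j i hj0 h0 (by rw [hi, he2, hj])
    · rw [← hj2] at hvF hcl
      exact w_notMem_vF hD1 hD2 hOE hAlt h hr j hj1.1 hj1.2 hcl hvF
  -- colors
  have hcS : ∀ v ∈ S, cm T E S v = true := by
    intro v hv
    rw [cm_mem hv (hSF v hv), hScl v hv]
    rfl
  have hcopen : ∀ v, E.c v = true → cm T E S v = true := by
    intro v hv
    rw [cm_notMem, hv]
    intro hmem
    rw [hScl v hmem] at hv
    exact absurd hv (by simp)
  have hcC : ∀ v ∈ CC T E, cm T E S v = false := by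
    intro v hv
    rw [cm_notMem (fun hmem => hSC v hmem hv)]
    exact (CC_closed hD1 h hv).1
  have hcw : ∀ j : ℕ, 1 ≤ j → j ≤ t → cm T E S (T.lf (R T E.r j)) = true := by
    intro j hj1 hj2
    by_cases hcj : E.c (T.lf (R T E.r j)) = true
    · exact hcopen _ hcj
    · exact hcS _ ((hSmem _).2 (Or.inr ⟨j, ⟨hj1, hj2⟩, rfl, by simpa using hcj⟩))
  have hcr : ∀ k : ℤ, m < k → cm T E S (T.rt (T.st (cf T E) E.r k)) = true := by
    intro k hk
    by_cases hv : T.rt (T.st (cf T E) E.r k) ∈ T.vP E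
    · refine hcS _ ((hSmem _).2 (Or.inl ⟨k, ⟨?_, ?_⟩, rfl, hv, hr.last k hk⟩))
      · have := hr.mpos
        omega
      · by_contra hcon
        push Not at hcon
        exact hN k hcon hv
    · refine hcopen _ ?_
      have h2 := (hS'.st k).2
      rw [cf_fresh hv] at h2
      simpa using h2
  -- the backward interface
  have hb1 : T.st (cm T E S) E.r (-((t + 1 : ℕ) : ℤ)) = T.al (T.st (cf T E) E.r (m + 1)) := by
    rw [back_R_last hcw]
    · refine TMap.ext_lf_rt (T := T) ?_ ?_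
      · rw [T.lf_lam_symm', T.lf_al, hr.rt1]
      · rw [T.rt_al, hr.lf1, lf_R_succ]
    · refine hcC _ ?_
      rw [hr.eqm]
      exact lf_mem_CC hD2 h hr.mpos
  have hb2 : ∀ q : ℕ, T.st (cm T E S) E.r (-((t + 1 + q : ℕ) : ℤ))
      = T.al (T.st (cf T E) E.r (m + 1 + q)) := by
    intro q
    induction q with
    | zero => rw [Nat.add_zero, Nat.cast_zero, add_zero]; exact hb1
    | succ q ih =>
      have e1 : t + 1 + (q + 1) = (t + 1 + q) + 1 := by omega
      have e2 : m + 1 + ((q + 1 : ℕ) : ℤ) = (m + 1 + q) + 1 := by push_cast; ring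
      rw [e1, TMap.st_neg_natCast, iterate_succ_apply', ← TMap.st_neg_natCast, ih, e2,
        hS'.st_succ]
      have hm := hr.mpos
      have hC := lf_mem_CC hD2 h (i := (m + 1 + q) + 1) (by omega)
      have hR := hcr ((m + 1 + q) + 1) (by omega)
      rw [hS'.st_succ] at hC hR
      generalize T.st (cf T E) E.r (m + 1 + q) = d at hC hR ⊢
      unfold TMap.pv
      unfold TMap.nx at hC hR ⊢
      have e3 : T.rt (T.lam.symm (T.al d)) = T.tau d := (T.tau_eq d).symm
      rw [e3]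
      by_cases hc : cf T E (T.tau d) = true
      · rw [if_pos hc] at hC hR ⊢
        rw [T.lf_rho] at hC
        rw [hcC _ hC, if_neg (by simp), T.rho_apply, T.al_al']
      · rw [if_neg hc] at hC hR ⊢
        rw [T.rt_lam] at hR
        rw [hR, if_pos rfl, T.rho_symm_apply, T.al_al']
  -- the averages
  obtain ⟨a', hA1, hA2⟩ := (h.fin S).avg
  change T.mirror.FAvg θ (cm T E S) E.r a' at hA1
  change T.mirror.BAvg θ (cm T E S) E.r a' at hA2
  have ha' : a' = a := by
    refine tendsto_nhds_unique hA2 ?_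
    refine h.favg.congr (fun n => ?_)
    congr 1
    refine Finset.sum_congr rfl (fun k _ => ?_)
    rw [TMap.mirror_st, neg_neg, st_cm h S k (by omega)]
  rw [ha'] at hA1
  unfold TMap.FAvg at hA1
  refine avg_contra (f := fun k : ℕ => θ (T.st (cf T E) E.r (k : ℤ)))
    (g := fun k : ℕ => θ (T.mirror.st (cm T E S) E.r (k : ℤ))) (p := t + 1) (q := m.toNat + 1)
    h.pos hFavg hA1 ?_
  intro k
  have h1 := hb2 k
  have hm := hr.mpos
  have e4 : (((m.toNat + 1 + k : ℕ)) : ℤ) = m + 1 + k := by push_cast; omega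
  change θ (T.mirror.st (cm T E S) E.r ((t + 1 + k : ℕ) : ℤ))
    = -θ (T.st (cf T E) E.r ((m.toNat + 1 + k : ℕ) : ℤ))
  rw [TMap.mirror_st, h1, h.flow.anti, e4]

end Pool.Agent.BS.H97
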