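import Pool.Agent.Helper47_BS.Stmts

/-! # BS squad (helper97): common lemmas for the deterministic modules -/

set_option autoImplicit false

namespace Pool.Agent.BS.H97

open Function Filter Topology

variable {D V : Type} {T : TMap D V}

/-! ### finiteness -/

theorem finite_lf {S : Set V} (hS : S.Finite) : {d | T.lf d ∈ S}.Finite := by
  have h : {d | T.lf d ∈ S} ⊆ ⋃ v ∈ S, (T.star v : Set D) := by
    intro d hd
    simp only [Set.mem_iUnion]
    exact ⟨T.lf d, hd, (T.mem_star _ _).2 rfl⟩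
  exact (hS.biUnion (fun v _ => (T.star v).finite_toSet)).subset h

theorem finite_rt {S : Set V} (hS : S.Finite) : {d | T.rt d ∈ S}.Finite := by
  have h := finite_lf (T := T) hS
  have h2 : {d | T.rt d ∈ S} = T.al ⁻¹' {d | T.lf d ∈ S} := rfl
  rw [h2]
  exact h.preimage (T.al.injective.injOn)

theorem finite_index_rt {ι : Type} {f : ι → D} (hf : Injective f) {S : Set V} (hS : S.Finite) :
    {k | T.rt (f k) ∈ S}.Finite :=
  Set.Finite.preimage (s := {d | T.rt d ∈ S}) (f := f) hf.injOn (finite_rt (T := T) hS)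

theorem finite_index_lf {ι : Type} {f : ι → D} (hf : Injective f) {S : Set V} (hS : S.Finite) :
    {k | T.lf (f k) ∈ S}.Finite :=
  Set.Finite.preimage (s := {d | T.lf d ∈ S}) (f := f) hf.injOn (finite_lf (T := T) hS)

/-- infinitely many right vertices -/
theorem exists_rt_notMem {f : ℤ → D} (hf : Injective f) {S : Set V} (hS : S.Finite) (N : ℤ) :
    ∃ k, N < k ∧ T.rt (f k) ∉ S := by
  by_contra hcon
  push Not at hcon
  have h := finite_index_rt (T := T) hf hS
  exact (Set.Ioi_infinite N) (h.subset hcon)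

theorem exists_lf_notMem {f : ℤ → D} (hf : Injective f) {S : Set V} (hS : S.Finite) (N : ℤ) :
    ∃ k, N < k ∧ T.lf (f k) ∉ S := by
  by_contra hcon
  push Not at hcon
  have h := finite_index_lf (T := T) hf hS
  exact (Set.Ioi_infinite N) (h.subset hcon)

/-! ### reachability -/

theorem reach_notMem {Z : Set V} {x y : V} (hx : x ∉ Z) (h : T.Reach Z x y) : y ∉ Z := by
  induction h with
  | refl => exact hx
  | tail _ h _ => exact h.1

theorem reach_symm {Z : Set V} {x y : V} (hx : x ∉ Z) (h : T.Reach Z x y) : T.Reach Z y x := by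
  induction h with
  | refl => exact Relation.ReflTransGen.refl
  | tail h1 h2 ih =>
    exact Relation.ReflTransGen.head ⟨reach_notMem hx h1, h2.2.symm⟩ ih

theorem reach_mono {Z Z' : Set V} (hZ : Z' ⊆ Z) {x y : V} (h : T.Reach Z x y) :
    T.Reach Z' x y := by
  induction h with
  | refl => exact Relation.ReflTransGen.refl
  | tail _ h2 ih => exact ih.tail ⟨fun h => h2.1 (hZ h), h2.2⟩

theorem conn_comp {Z : Set V} {x : V} (hx : x ∉ Z) : T.Conn {y | T.Reach Z x y} := by
  intro u hu w hw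
  have h1 : T.Reach Z u w := (reach_symm hx hu).trans hw
  clear hw
  induction h1 with
  | refl => exact Relation.ReflTransGen.refl
  | tail h1 h2 ih =>
    refine ih.tail ⟨?_, h2.2⟩
    intro h3
    exact h3 ((Relation.ReflTransGen.trans hu h1).tail h2)

theorem conn_insert {F : Set V} {b c : V} (hF : T.Conn F) (hb : b ∈ F) (h : T.Adj b c) :
    T.Conn (insert c F) := by
  have hm : (insert c F)ᶜ ⊆ Fᶜ := fun x hx hx' => hx (Set.mem_insert_of_mem c hx')
  have hc : c ∉ (insert c F)ᶜ := fun h => h (Set.mem_insert c F)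
  have hbn : b ∉ (insert c F)ᶜ := fun h => h (Set.mem_insert_of_mem c hb)
  intro u hu w hw
  rcases hu with rfl | hu
  · rcases hw with rfl | hw
    · exact Relation.ReflTransGen.refl
    · exact Relation.ReflTransGen.head ⟨hbn, h.symm⟩ (reach_mono hm (hF b hb w hw))
  · rcases hw with rfl | hw
    · exact (reach_mono hm (hF u hu b hb)).tail ⟨hc, h⟩
    · exact reach_mono hm (hF u hu w hw)

theorem conn_union {F G : Set V} {b : V} (hF : T.Conn F) (hG : T.Conn G) (hb : b ∈ F)
    (hb' : b ∈ G) : T.Conn (F ∪ G) := by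
  have hm : (F ∪ G)ᶜ ⊆ Fᶜ := fun x hx hx' => hx (Or.inl hx')
  have hm' : (F ∪ G)ᶜ ⊆ Gᶜ := fun x hx hx' => hx (Or.inr hx')
  intro u hu w hw
  have h1 : T.Reach (F ∪ G)ᶜ u b := by
    rcases hu with hu | hu
    · exact reach_mono hm (hF u hu b hb)
    · exact reach_mono hm' (hG u hu b hb')
  have h2 : T.Reach (F ∪ G)ᶜ b w := by
    rcases hw with hw | hw
    · exact reach_mono hm (hF b hb w hw)
    · exact reach_mono hm' (hG b hb' w hw)
  exact h1.trans h2

theorem exists_fin_conn {Z : Set V} {x y : V} (h : T.Reach Z x y) :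
    ∃ F : Set V, F.Finite ∧ x ∈ F ∧ y ∈ F ∧ T.Conn F ∧ ∀ u ∈ F, T.Reach Z x u := by
  induction h with
  | refl =>
    refine ⟨{x}, Set.finite_singleton x, rfl, rfl, ?_, ?_⟩
    · rintro u rfl w rfl
      exact Relation.ReflTransGen.refl
    · rintro u rfl
      exact Relation.ReflTransGen.refl
  | tail h1 h2 ih =>
    obtain ⟨F, hF, hx, hy, hc, hr⟩ := ih
    refine ⟨insert _ F, hF.insert _, Set.mem_insert_of_mem _ hx, Set.mem_insert _ _,
      conn_insert hc hy h2.2, ?_⟩
    rintro u (rfl | hu)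
    · exact h1.tail h2
    · exact hr u hu

/-! ### rotation around the right vertex -/

theorem rho_pow_apply (k : ℕ) (d : D) : (T.rho ^ k) d = T.al ((T.lam.symm ^ k) (T.al d)) := by
  induction k with
  | zero => simp
  | succ k ih =>
    rw [pow_succ', Equiv.Perm.mul_apply, ih, T.rho_apply, T.al_al, pow_succ',
      Equiv.Perm.mul_apply]

theorem exists_rho_pow {d d' : D} (h : T.rt d' = T.rt d) : ∃ k : ℕ, (T.rho ^ k) d = d' := by
  obtain ⟨n, hn⟩ := T.cyc (T.al d') (T.al d) h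
  refine ⟨n, ?_⟩
  rw [rho_pow_apply, ← hn]
  have e : T.lam.symm ^ n = (T.lam ^ n).symm := by
    change T.lam⁻¹ ^ n = (T.lam ^ n)⁻¹
    rw [inv_pow]
  rw [e, Equiv.symm_apply_apply, T.al_al]

@[simp] theorem rt_rho_pow (k : ℕ) (d : D) : T.rt ((T.rho ^ k) d) = T.rt d := by
  induction k with
  | zero => simp
  | succ k ih => rw [pow_succ', Equiv.Perm.mul_apply, T.rt_rho, ih]

/-- the rotation around the right vertex of `d`: exact period -/
theorem exists_period (d : D) : ∃ n : ℕ, 0 < n ∧ (T.rho ^ n) d = d ∧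
    (∀ i j : ℕ, i < j → j < n → (T.rho ^ i) d ≠ (T.rho ^ j) d) ∧
    ∀ d', T.rt d' = T.rt d → ∃ k < n, (T.rho ^ k) d = d' := by
  have h0 : ∃ n : ℕ, 0 < n ∧ (T.rho ^ n) d = d := by
    obtain ⟨k, hk⟩ := exists_rho_pow (T := T) (d := d) (d' := T.rho.symm d) (by simp)
    refine ⟨k + 1, Nat.succ_pos k, ?_⟩
    rw [pow_succ', Equiv.Perm.mul_apply, hk, Equiv.apply_symm_apply]
  classical
  obtain ⟨hn, hn2⟩ := Nat.find_spec h0
  refine ⟨Nat.find h0, hn, hn2, ?_, ?_⟩
  · intro i j hij hj h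
    have h2 : (T.rho ^ (j - i)) d = d := by
      have e : T.rho ^ j = T.rho ^ i * T.rho ^ (j - i) := by
        rw [← pow_add]; congr 1; omega
      rw [e, Equiv.Perm.mul_apply] at h
      exact ((T.rho ^ i).injective h).symm
    exact Nat.find_min h0 (m := j - i) (by omega) ⟨by omega, h2⟩
  · intro d' hd'
    obtain ⟨k, hk⟩ := exists_rho_pow hd'
    refine ⟨k % Nat.find h0, Nat.mod_lt _ hn, ?_⟩
    rw [← hk]
    conv_rhs => rw [← Nat.mod_add_div k (Nat.find h0)]
    rw [pow_add, Equiv.Perm.mul_apply, pow_mul]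
    congr 1
    have h3 : ∀ m : ℕ, ((T.rho ^ Nat.find h0) ^ m) d = d := by
      intro m
      induction m with
      | zero => rfl
      | succ m ih => rw [pow_succ, Equiv.Perm.mul_apply, hn2, ih]
    exact (h3 _).symm

/-! ### marks and colors -/

variable {θ : D → ℤ} {E : Env D V} {a : ℝ} {Δ K : ℕ}

theorem flip_c_vP {S : Set V} {v : V} (h : v ∈ T.vP E) : (T.flipE S E).c v = E.c v := by
  simp only [TMap.flipE]
  rw [if_neg (fun h2 => h2.2 h)]

theorem flip_c_notMem {S : Set V} {v : V} (h : v ∉ S) : (T.flipE S E).c v = E.c v := by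
  simp only [TMap.flipE]
  rw [if_neg (fun h2 => h h2.1)]

theorem flip_c_fresh {S : Set V} {v : V} (hS : v ∈ S) (h : v ∉ T.vP E) :
    (T.flipE S E).c v = !E.c v := by
  simp only [TMap.flipE]
  rw [if_pos ⟨hS, h⟩]

theorem lf_mem_vP {e : D} (h : e ∈ E.P) : T.lf e ∈ T.vP E := ⟨e, h, Or.inl rfl⟩
theorem rt_mem_vP {e : D} (h : e ∈ E.P) : T.rt e ∈ T.vP E := ⟨e, h, Or.inr rfl⟩
theorem lf_mem_vF {e : D} (h : e ∈ E.F) : T.lf e ∈ T.vF E := ⟨e, h, Or.inl rfl⟩
theorem rt_mem_vF {e : D} (h : e ∈ E.F) : T.rt e ∈ T.vF E := ⟨e, h, Or.inr rfl⟩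

/-- two colorings which agree on the vertices of the past interface have the same past
interface -/
theorem st_agree_back {c c' : V → Bool} {r : D}
    (h : ∀ i : ℤ, i ≤ 0 → c' (T.lf (T.st c r i)) = c (T.lf (T.st c r i)) ∧
      c' (T.rt (T.st c r i)) = c (T.rt (T.st c r i))) (i : ℤ) (hi : i ≤ 0) :
    T.st c' r i = T.st c r i := by
  obtain ⟨n, rfl⟩ : ∃ n : ℕ, i = -(n : ℤ) := ⟨i.natAbs, by omega⟩
  clear hi
  induction n with
  | zero => rfl
  | succ n ih =>
    rw [TMap.st_neg_natCast, iterate_succ_apply', ← TMap.st_neg_natCast, ih,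
      TMap.st_neg_natCast, TMap.st_neg_natCast, iterate_succ_apply']
    have h1 := h (-((n + 1 : ℕ) : ℤ)) (by omega)
    rw [TMap.st_neg_natCast, iterate_succ_apply'] at h1
    generalize (T.pv c)^[n] r = d at h1
    unfold TMap.pv at h1 ⊢
    by_cases hc : c (T.rt (T.lam.symm d)) = true
    · rw [if_pos hc] at h1 ⊢
      rw [T.lf_rho_symm] at h1
      rw [if_pos (h1.1.trans hc)]
    · rw [if_neg hc] at h1 ⊢
      rw [if_neg (by rw [h1.2]; exact hc)]

theorem st_agree_fwd {c c' : V → Bool} {r : D}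
    (h : ∀ i : ℤ, 0 ≤ i → c' (T.lf (T.st c r i)) = c (T.lf (T.st c r i)) ∧
      c' (T.rt (T.st c r i)) = c (T.rt (T.st c r i))) (i : ℤ) (hi : 0 ≤ i) :
    T.st c' r i = T.st c r i := by
  have h1 := st_agree_back (T := T.mirror) (c := c) (c' := c') (r := r) (by
    intro i hi
    rw [TMap.mirror_st]
    exact h (-i) (by omega)) (-i) (by omega)
  rw [TMap.mirror_st, TMap.mirror_st, neg_neg] at h1
  exact h1

/-! ### averages -/

/-- partial sums of a sequence with positive averages are bounded below -/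
theorem exists_lower {f : ℕ → ℤ} {a : ℝ} (ha : 0 < a)
    (h : Tendsto (fun n : ℕ => (∑ k ∈ Finset.range n, (f k : ℝ)) / n) atTop (𝓝 a)) :
    ∃ C : ℤ, 0 ≤ C ∧ ∀ n : ℕ, -C ≤ ∑ k ∈ Finset.range n, f k := by
  have h1 : ∀ᶠ n : ℕ in atTop, 0 < (∑ k ∈ Finset.range n, (f k : ℝ)) / n :=
    h.eventually (lt_mem_nhds ha)
  obtain ⟨N, hN⟩ := eventually_atTop.1 h1
  refine ⟨∑ k ∈ Finset.range N, |f k|, Finset.sum_nonneg (fun _ _ => abs_nonneg _), ?_⟩
  intro n
  by_cases hn : N ≤ n
  · have h2 := hN n hn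
    have h3 : 0 ≤ ∑ k ∈ Finset.range n, f k := by
      by_contra hcon
      push Not at hcon
      have h4 : (∑ k ∈ Finset.range n, (f k : ℝ)) < 0 := by
        have : ((∑ k ∈ Finset.range n, f k : ℤ) : ℝ) < 0 := by exact_mod_cast hcon
        push_cast at this
        exact this
      have h5 := div_nonpos_of_nonpos_of_nonneg h4.le (Nat.cast_nonneg n)
      linarith
    have h6 : (0 : ℤ) ≤ ∑ k ∈ Finset.range N, |f k| :=
      Finset.sum_nonneg (fun _ _ => abs_nonneg _)
    linarith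
  · push Not at hn
    have h7 : |∑ k ∈ Finset.range n, f k| ≤ ∑ k ∈ Finset.range n, |f k| :=
      Finset.abs_sum_le_sum_abs _ _
    have h8 : ∑ k ∈ Finset.range n, |f k| ≤ ∑ k ∈ Finset.range N, |f k| :=
      Finset.sum_le_sum_of_subset_of_nonneg (Finset.range_mono hn.le)
        (fun _ _ _ => abs_nonneg _)
    have h9 := neg_abs_le (∑ k ∈ Finset.range n, f k)
    linarith

end Pool.Agent.BS.H97
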